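import Pool.Agent.H773.IE.SR

/-!
# Rauzy induction: a step, the last bottom letter wins (`S_geoF`), by helper249 for helper773
-/

set_option autoImplicit false

open MeasureTheory Set Filter Topology

namespace Pool.Agent.H249.IE

open Pool.Agent.H773.IE

section words

variable {n : ℕ} {T : ℝ → ℝ} {P : Fin n → Set ℝ} {τ : Fin n → ℝ}

theorem follows_append (u v : List (Fin n)) (x : ℝ) :
    Follows T P (u ++ v) x ↔ Follows T P u x ∧ Follows T P v (T^[u.length] x) := by
  induction u generalizing x with
  | nil => simp [Follows]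
  | cons j u ih =>
    rw [List.cons_append]
    simp only [Follows, List.length_cons, Function.iterate_succ_apply]
    rw [ih, and_assoc]

theorem follows_tr (hT : ∀ j, ∀ x ∈ P j, T x = x + τ j) (u : List (Fin n)) (x : ℝ)
    (h : Follows T P u x) : T^[u.length] x = x + tr τ u := by
  induction u generalizing x with
  | nil => simp [tr]
  | cons j u ih =>
    obtain ⟨h1, h2⟩ := h
    rw [List.length_cons, Function.iterate_succ_apply, ih _ h2, hT j x h1]
    simp only [tr, List.map_cons, List.sum_cons]
    ring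

theorem tr_append (u v : List (Fin n)) : tr τ (u ++ v) = tr τ u + tr τ v := by
  simp only [tr, List.map_append, List.sum_append]

end words

section step

variable {m : ℕ} {s : Sta m} {lam : Fin (m + 1) → ℝ}

theorem et_val (s : Sta m) : (s.1 (et s) : ℕ) = m := by
  rw [et, Equiv.apply_symm_apply, Fin.val_last]

theorem eb_val (s : Sta m) : (s.2 (eb s) : ℕ) = m := by
  rw [eb, Equiv.apply_symm_apply, Fin.val_last]

theorem ne_et {i : Fin (m + 1)} (h : i ≠ et s) : (s.1 i : ℕ) < m := by
  have h1 : (s.1 i : ℕ) ≠ m := by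
    intro h2
    apply h
    have h3 : s.1 i = Fin.last m := Fin.ext (by rw [h2, Fin.val_last])
    rw [et, ← h3, Equiv.symm_apply_apply]
  have := (s.1 i).isLt
  omega

theorem val_inj {i j : Fin (m + 1)} (h : (s.1 i : ℕ) = (s.1 j : ℕ)) : i = j :=
  s.1.injective (Fin.ext h)

theorem insv (hne : et s ≠ eb s) (i : Fin (m + 1)) :
    (ins s.1 (eb s) i : ℕ) = if (s.1 i : ℕ) ≤ (s.1 (eb s) : ℕ) then (s.1 i : ℕ)
      else if (s.1 i : ℕ) = m then (s.1 (eb s) : ℕ) + 1 else (s.1 i : ℕ) + 1 := by
  have hl : s.1 (eb s) ≠ Fin.last m := by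
    intro h
    apply hne
    rw [et, ← h, Equiv.symm_apply_apply]
  rw [ins_val _ _ hl]
  simp only [Fin.ext_iff, Fin.val_last]

theorem lt1 (hne : et s ≠ eb s) {i j : Fin (m + 1)} (hi : i ≠ et s) (hj : j ≠ et s) :
    ins s.1 (eb s) j < ins s.1 (eb s) i ↔ s.1 j < s.1 i := by
  rw [Fin.lt_def, Fin.lt_def, insv hne, insv hne]
  have h1 := ne_et hi
  have h2 := ne_et hj
  split_ifs <;> omega

theorem lt2 (hne : et s ≠ eb s) {i : Fin (m + 1)} (hi : i ≠ et s) :
    ins s.1 (eb s) (et s) < ins s.1 (eb s) i ↔ s.1 (eb s) < s.1 i := by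
  rw [Fin.lt_def, Fin.lt_def, insv hne, insv hne]
  have h1 := ne_et hi
  have h2 := ne_et (s := s) hne.symm
  have h3 := et_val s
  split_ifs <;> omega

theorem lt3 (hne : et s ≠ eb s) {j : Fin (m + 1)} (hj : j ≠ et s) (hj' : j ≠ eb s) :
    ins s.1 (eb s) j < ins s.1 (eb s) (et s) ↔ s.1 j < s.1 (eb s) := by
  rw [Fin.lt_def, Fin.lt_def, insv hne, insv hne]
  have h1 := ne_et hj
  have h2 := ne_et (s := s) hne.symm
  have h3 := et_val s
  have h4 : (s.1 j : ℕ) ≠ (s.1 (eb s) : ℕ) := fun h => hj' (val_inj h)
  split_ifs <;> omega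

theorem lt4 (hne : et s ≠ eb s) : ins s.1 (eb s) (eb s) < ins s.1 (eb s) (et s) := by
  rw [Fin.lt_def, insv hne, insv hne]
  have h2 := ne_et (s := s) hne.symm
  have h3 := et_val s
  split_ifs <;> omega

theorem uT_eq (s : Sta m) (lam : Fin (m + 1) → ℝ) (i : Fin (m + 1)) :
    uT s lam i = ∑ j, if s.1 j < s.1 i then lam j else 0 := by
  rw [uT, Finset.sum_filter]

theorem uB_eq (s : Sta m) (lam : Fin (m + 1) → ℝ) (i : Fin (m + 1)) :
    uB s lam i = ∑ j, if s.2 j < s.2 i then lam j else 0 := by
  rw [uB, Finset.sum_filter]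

theorem lam_be (s : Sta m) (lam : Fin (m + 1) → ℝ) :
    nxtL s false lam (eb s) = lam (eb s) - lam (et s) := by
  simp [nxtL, win, los]

theorem lam_ne (lam : Fin (m + 1) → ℝ) {i : Fin (m + 1)} (hi : i ≠ eb s) :
    nxtL s false lam i = lam i := by
  have : win s false = eb s := by simp [win]
  rw [nxtL, this, Function.update_of_ne hi]

theorem w_al (s : Sta m) (w : Fin (m + 1) → List (Fin (m + 1))) :
    nxtW s false w (et s) = w (eb s) ++ w (et s) := by
  simp [nxtW, los]

theorem w_ne (w : Fin (m + 1) → List (Fin (m + 1))) {i : Fin (m + 1)} (hi : i ≠ et s) :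
    nxtW s false w i = w i := by
  have : los s false = et s := by simp [los]
  rw [nxtW, this, Function.update_of_ne hi]

theorem nxt_eq (s : Sta m) : nxt s false = (ins s.1 (eb s), s.2) := by
  simp [nxt]

/-- The top intervals of the other letters do not move. -/
theorem uT_ne (hne : et s ≠ eb s) {i : Fin (m + 1)} (hi : i ≠ et s) :
    uT (nxt s false) (nxtL s false lam) i = uT s lam i := by
  rw [uT_eq, uT_eq, ← sub_eq_zero, ← Finset.sum_sub_distrib, nxt_eq]
  have key : ∀ j, ((if ins s.1 (eb s) j < ins s.1 (eb s) i then nxtL s false lam j else 0) -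
      if s.1 j < s.1 i then lam j else 0) =
      (if j = et s then (if s.1 (eb s) < s.1 i then lam (et s) else 0) else 0) -
        (if j = eb s then (if s.1 (eb s) < s.1 i then lam (et s) else 0) else 0) := by
    intro j
    by_cases h1 : j = et s
    · rw [h1, if_pos rfl, if_neg hne, lam_ne lam hne, sub_zero]
      have h2 : ¬ s.1 (et s) < s.1 i := by
        rw [Fin.lt_def, et_val]
        have := (s.1 i).isLt
        omega
      rw [if_neg h2, sub_zero]
      by_cases h3 : s.1 (eb s) < s.1 i
      · rw [if_pos h3, if_pos ((lt2 hne hi).2 h3)]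
      · rw [if_neg h3, if_neg (fun h => h3 ((lt2 hne hi).1 h))]
    · rw [if_neg h1, zero_sub]
      by_cases h2 : j = eb s
      · rw [h2, if_pos rfl, lam_be]
        by_cases h3 : s.1 (eb s) < s.1 i
        · rw [if_pos h3, if_pos ((lt1 hne hi hne.symm).2 h3), if_pos h3]
          ring
        · rw [if_neg h3, if_neg (fun h => h3 ((lt1 hne hi hne.symm).1 h)), if_neg h3]
          ring
      · rw [if_neg h2, lam_ne lam h2, neg_zero]
        by_cases h3 : s.1 j < s.1 i
        · rw [if_pos h3, if_pos ((lt1 hne hi h1).2 h3), sub_self]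
        · rw [if_neg h3, if_neg (fun h => h3 ((lt1 hne hi h1).1 h)), sub_self]
  rw [Finset.sum_congr rfl fun j _ => key j, Finset.sum_sub_distrib, Finset.sum_ite_eq',
    Finset.sum_ite_eq', if_pos (Finset.mem_univ _), if_pos (Finset.mem_univ _), sub_self]

/-- The new top interval of the loser. -/
theorem uT_al (hne : et s ≠ eb s) :
    uT (nxt s false) (nxtL s false lam) (et s) = uT s lam (eb s) + (lam (eb s) - lam (et s)) := by
  rw [← sub_eq_iff_eq_add', uT_eq, uT_eq, ← Finset.sum_sub_distrib, nxt_eq]
  have key : ∀ j, ((if ins s.1 (eb s) j < ins s.1 (eb s) (et s) then nxtL s false lam j else 0) -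
      if s.1 j < s.1 (eb s) then lam j else 0) =
      (if j = eb s then (lam (eb s) - lam (et s)) else 0) := by
    intro j
    by_cases h1 : j = et s
    · rw [h1, if_neg (lt_irrefl _), if_neg hne]
      have h2 : ¬ s.1 (et s) < s.1 (eb s) := by
        rw [Fin.lt_def, et_val]
        have := (s.1 (eb s)).isLt
        omega
      rw [if_neg h2, sub_zero]
    · by_cases h2 : j = eb s
      · rw [h2, if_pos rfl, if_pos (lt4 hne), if_neg (lt_irrefl _), lam_be, sub_zero]
      · rw [if_neg h2, lam_ne lam h2]
        by_cases h3 : s.1 j < s.1 (eb s)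
        · rw [if_pos h3, if_pos ((lt3 hne h1 h2).2 h3), sub_self]
        · rw [if_neg h3, if_neg (fun h => h3 ((lt3 hne h1 h2).1 h)), sub_self]
  rw [Finset.sum_congr rfl fun j _ => key j, Finset.sum_ite_eq', if_pos (Finset.mem_univ _)]

/-- The bottom intervals have the same left ends. -/
theorem uB_nxt (i : Fin (m + 1)) : uB (nxt s false) (nxtL s false lam) i = uB s lam i := by
  rw [uB_eq, uB_eq, nxt_eq]
  apply Finset.sum_congr rfl
  intro j _
  by_cases h1 : s.2 j < s.2 i
  · have h2 : j ≠ eb s := by
      rintro rfl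
      rw [Fin.lt_def, eb_val] at h1
      have := (s.2 i).isLt
      omega
    rw [lam_ne lam h2]
  · rw [if_neg h1, if_neg h1]

theorem uT_last (s : Sta m) (lam : Fin (m + 1) → ℝ) : uT s lam (et s) + lam (et s) = ∑ j, lam j := by
  have key : ∀ j, lam j - (if s.1 j < s.1 (et s) then lam j else 0) =
      if j = et s then lam (et s) else 0 := by
    intro j
    by_cases h : j = et s
    · rw [h, if_pos rfl, if_neg (lt_irrefl _), sub_zero]
    · have h1 : s.1 j < s.1 (et s) := by
        rw [Fin.lt_def, et_val]
        exact ne_et h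
      rw [if_neg h, if_pos h1, sub_self]
  have h2 : ∑ j, (lam j - (if s.1 j < s.1 (et s) then lam j else 0)) = lam (et s) := by
    rw [Finset.sum_congr rfl fun j _ => key j, Finset.sum_ite_eq', if_pos (Finset.mem_univ _)]
  rw [Finset.sum_sub_distrib, ← uT_eq] at h2
  linarith

theorem uB_last (s : Sta m) (lam : Fin (m + 1) → ℝ) : uB s lam (eb s) + lam (eb s) = ∑ j, lam j :=
  uT_last (s.2, s.1) lam

end step

theorem t_geoF : S_geoF := by
  intro m T P τ hT s lam w hne hG hlt
  have hb : uT s lam (et s) + lam (et s) = uB s lam (eb s) + lam (eb s) := by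
    rw [uT_last, uB_last]
  have hpa := hG.pos (et s)
  have hpb := hG.pos (eb s)
  have hrb := hG.ret (eb s)
  refine ⟨?_, ?_, ?_, ?_⟩
  · intro i
    by_cases h : i = eb s
    · rw [h, lam_be]
      linarith
    · rw [lam_ne lam h]
      exact hG.pos i
  · intro i x hx
    by_cases h : i = et s
    · subst h
      rw [uT_al hne, lam_ne lam hne] at hx
      rw [w_al, follows_append]
      have h1 : Follows T P (w (eb s)) x := by
        apply hG.itin (eb s) x
        constructor
        · linarith [hx.1]
        · linarith [hx.2]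
      refine ⟨h1, ?_⟩
      rw [follows_tr hT _ _ h1, hrb]
      apply hG.itin (et s)
      constructor
      · linarith [hx.1]
      · linarith [hx.2]
    · rw [uT_ne hne h] at hx
      rw [w_ne w h]
      apply hG.itin i x
      by_cases h2 : i = eb s
      · subst h2
        rw [lam_be] at hx
        exact ⟨hx.1, by linarith [hx.2]⟩
      · rwa [lam_ne lam h2] at hx
  · intro i
    rw [uB_nxt]
    by_cases h : i = et s
    · subst h
      rw [w_al, tr_append, hrb, hG.ret (et s), uT_al hne]
      linarith
    · rw [w_ne w h, uT_ne hne h]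
      exact hG.ret i
  · intro y hy
    obtain ⟨i, x, hx, l, hl, hxy⟩ := hG.cover y hy
    by_cases h : i = et s
    · subst h
      have h0 : x - (uB s lam (eb s) - uT s lam (eb s)) ∈
          Ico (uT s lam (eb s)) (uT s lam (eb s) + lam (eb s)) := by
        constructor
        · linarith [hx.1]
        · linarith [hx.2]
      have h1 := follows_tr hT _ _ (hG.itin (eb s) _ h0)
      rw [hrb, sub_add_cancel] at h1
      refine ⟨et s, x - (uB s lam (eb s) - uT s lam (eb s)), ?_, l + (w (eb s)).length, ?_, ?_⟩
      · rw [uT_al hne, lam_ne lam hne]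
        constructor
        · linarith [hx.1]
        · linarith [hx.2]
      · rw [w_al, List.length_append]
        omega
      · rw [Function.iterate_add_apply, h1, hxy]
    · by_cases h2 : i = eb s
      · subst h2
        by_cases h3 : x < uT s lam (eb s) + (lam (eb s) - lam (et s))
        · refine ⟨eb s, x, ?_, l, ?_, hxy⟩
          · rw [uT_ne hne h, lam_be]
            exact ⟨hx.1, h3⟩
          · rw [w_ne w h]
            exact hl
        · refine ⟨et s, x, ?_, l, ?_, hxy⟩
          · rw [uT_al hne, lam_ne lam hne]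
            exact ⟨not_lt.1 h3, by linarith [hx.2]⟩
          · rw [w_al, List.length_append]
            omega
      · refine ⟨i, x, ?_, l, ?_, hxy⟩
        · rw [uT_ne hne h, lam_ne lam h2]
          exact hx
        · rw [w_ne w h]
          exact hl

end Pool.Agent.H249.IE
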